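import Pool.Agent.Q104.CT.Words

set_option autoImplicit false

/-!
# The visual metric, convergence actions, conical limit points
-/

open Filter Topology

namespace Pool.Agent.Q104.CT

/-- The visual metric on the boundary of the free group: the distance of two distinct infinite
reduced words is `2 ^ (-n)`, where `n` is the length of their common prefix. -/
noncomputable instance : MetricSpace Bd :=
  @MetricSpace.induced Bd (ℕ → Lt) Subtype.val Subtype.val_injective PiNat.metricSpace

/-- A sequence of elements of the free group converges to the infinite word `ξ`: its reduced words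
agree with `ξ` on longer and longer prefixes. -/
def ConvTo (h : ℕ → H) (ξ : Bd) : Prop :=
  ∀ m : ℕ, ∀ᶠ n in atTop, ∀ i < m, (h n).toWord[i]? = some (ξ.get i)

/-- `h n → c` uniformly on compact subsets of `Z ∖ {b}`. -/
def ConvSeq {G Z : Type} [Group G] [TopologicalSpace Z] [MulAction G Z] (h : ℕ → G) (b c : Z) :
    Prop :=
  ∀ K : Set Z, IsCompact K → b ∉ K → ∀ U ∈ 𝓝 c, ∀ᶠ n in atTop, ∀ z ∈ K, h n • z ∈ U

/-- Convergence actions (sequences): `G` acts by homeomorphisms and each sequence of distinct
elements has a subsequence which converges to some `c` uniformly on compact subsets of the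
complement of some `b`. -/
def IsConvergence (G Z : Type) [Group G] [TopologicalSpace Z] [MulAction G Z] : Prop :=
  (∀ g : G, Continuous fun z : Z => g • z) ∧
    ∀ h : ℕ → G, Function.Injective h →
      ∃ φ : ℕ → ℕ, StrictMono φ ∧ ∃ b c : Z, ConvSeq (h ∘ φ) b c

/-- Convergence actions (triples): `G` acts by homeomorphisms and the action on the space of
distinct triples is properly discontinuous. -/
def IsTripleConvergence (G Z : Type) [Group G] [TopologicalSpace Z] [MulAction G Z] : Prop :=
  (∀ g : G, Continuous fun z : Z => g • z) ∧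
    ∀ K : Set (Z × Z × Z), IsCompact K →
      (∀ t ∈ K, t.1 ≠ t.2.1 ∧ t.1 ≠ t.2.2 ∧ t.2.1 ≠ t.2.2) →
      {g : G | ∃ t ∈ K, (g • t.1, g • t.2.1, g • t.2.2) ∈ K}.Finite

/-- The limit set. -/
def LimitSet (G Z : Type) [Group G] [TopologicalSpace Z] [MulAction G Z] : Set Z :=
  {c | ∃ (h : ℕ → G) (b : Z), Function.Injective h ∧ ConvSeq h b c}

/-- Conical limit points. -/
def Conical (G : Type) {Z : Type} [Group G] [TopologicalSpace Z] [MulAction G Z] (z : Z) : Prop :=
  ∃ (h : ℕ → G) (b c : Z), b ≠ c ∧ Tendsto (fun n => h n • z) atTop (𝓝 b) ∧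
    ∀ y, y ≠ z → Tendsto (fun n => h n • y) atTop (𝓝 c)

/-- The limit points which are not conical. -/
def NonConical (G Z : Type) [Group G] [TopologicalSpace Z] [MulAction G Z] : Set Z :=
  {z ∈ LimitSet G Z | ¬ Conical G z}

end Pool.Agent.Q104.CT
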