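import Pool.Agent.Q104.CT.Quot

set_option autoImplicit false

/-!
# Hausdorff dimension of the collapsed set, proper discontinuity on triples
-/

open Filter Topology

namespace Pool.Agent.Q104.CT

open Bd

/-- Binary expansions. -/
noncomputable def fexp (p : Bd) : ℝ :=
  Real.ofDigits (b := 2) (fun n => if (p.get n).1 = 0 then 0 else 1)

theorem fexp_lip : LipschitzWith 1 fexp := by
  apply LipschitzWith.of_dist_le_mul
  intro p q
  by_cases h : p = q
  · subst h; simp
  · have h1 : p.1 ≠ q.1 := fun h' => h (Subtype.ext h')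
    have h2 : dist p q = (1 / 2 : ℝ) ^ PiNat.firstDiff p.1 q.1 :=
      PiNat.dist_eq_of_ne (E := fun _ => Lt) h1
    have h3 : ∀ i < PiNat.firstDiff p.1 q.1, p.get i = q.get i := fun i hi =>
      PiNat.apply_eq_of_lt_firstDiff (E := fun _ => Lt) hi
    rw [h2, Real.dist_eq, NNReal.coe_one, one_mul]
    refine (Real.abs_ofDigits_sub_ofDigits_le (n := PiNat.firstDiff p.1 q.1) (fun i hi => ?_)).trans
      (le_of_eq ?_)
    · rw [h3 i hi]
    · rw [one_div, inv_pow]
      norm_num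

theorem Icc_subset : Set.Icc (0 : ℝ) 1 ⊆ fexp '' PW := by
  intro x hx
  obtain ⟨d, -, hd⟩ := Real.ofDigits_SurjOn (b := 2) (by norm_num) hx
  refine ⟨⟨fun n => if d n = 0 then (0, true) else (1, true), fun n => ?_⟩, fun n => ?_, ?_⟩
  · simp only [bar]
    split_ifs <;> simp
  · show (if d n = 0 then ((0, true) : Lt) else (1, true)).1 ≠ 2
    split_ifs <;> decide
  · rw [← hd]
    unfold fexp
    congr 1
    funext n
    show (if (if d n = 0 then ((0, true) : Lt) else (1, true)).1 = 0 then (0 : Fin 2) else 1) = d n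
    by_cases h : d n = 0
    · simp [h]
    · rw [if_neg h, if_neg (by decide)]
      omega

/-- The collapsed set has Hausdorff dimension at least one. -/
theorem one_le_dimH : 1 ≤ dimH PW := by
  have h1 : dimH (fexp '' PW) ≤ dimH PW := fexp_lip.dimH_image_le PW
  have h2 : dimH (Set.Icc (0 : ℝ) 1) ≤ dimH (fexp '' PW) := dimH_mono Icc_subset
  have h3 : dimH (Set.Icc (0 : ℝ) 1) = 1 := by
    rw [Real.dimH_of_nonempty_interior (by rw [interior_Icc]; exact ⟨1 / 2, by norm_num⟩)]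
    simp
  rw [h3] at h2
  exact h2.trans h1

section triples

variable {G Z : Type} [Group G] [TopologicalSpace Z] [MulAction G Z]

theorem ConvSeq.apply [CompactSpace Z] [T2Space Z] {h : ℕ → G} {b c : Z} (hh : ConvSeq h b c)
    {x : ℕ → Z} {y : Z} (hx : Tendsto x atTop (𝓝 y)) (hy : y ≠ b) :
    Tendsto (fun n => h n • x n) atTop (𝓝 c) := by
  have h1 : ({b} : Set Z)ᶜ ∈ 𝓝 y := isOpen_compl_singleton.mem_nhds hy
  obtain ⟨A, hA, hcl, hsub⟩ := exists_mem_nhds_isClosed_subset h1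
  rw [Filter.tendsto_def]
  intro U hU
  filter_upwards [hh A hcl.isCompact (fun hb => hsub hb rfl) U hU, hx.eventually_mem hA]
    with n h2 h3
  exact h2 _ h3

theorem triple_of_seq [CompactSpace Z] [TopologicalSpace.MetrizableSpace Z]
    (h : IsConvergence G Z) : IsTripleConvergence G Z := by
  refine ⟨h.1, fun K hK hdist => ?_⟩
  by_contra hinf
  have hinf' : {g : G | ∃ t ∈ K, (g • t.1, g • t.2.1, g • t.2.2) ∈ K}.Infinite := hinf
  have e := hinf'.natEmbedding
  let g : ℕ → G := fun n => (e n).1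
  have hg : Function.Injective g := fun a b hab => e.injective (Subtype.ext hab)
  have hmem : ∀ n, ∃ t ∈ K, (g n • t.1, g n • t.2.1, g n • t.2.2) ∈ K := fun n => (e n).2
  obtain ⟨φ, hφ, b, c, hconv⟩ := h.2 g hg
  choose t ht ht' using fun n => hmem (φ n)
  obtain ⟨s, hs, ψ, hψ, hlim⟩ := hK.tendsto_subseq ht
  obtain ⟨s', hs', θ, hθ, hlim'⟩ := hK.tendsto_subseq (fun n => ht' (ψ n))
  have hlim2 : Tendsto (fun n => t (ψ (θ n))) atTop (𝓝 s) := hlim.comp hθ.tendsto_atTop
  have hconv2 : ConvSeq (fun n => g (φ (ψ (θ n)))) b c := by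
    intro A hA hb U hU
    exact (hψ.comp hθ).tendsto_atTop.eventually (hconv A hA hb U hU)
  obtain ⟨d1, d2, d3⟩ := hdist s hs
  obtain ⟨e1, e2, e3⟩ := hdist s' hs'
  have c1 : Tendsto (fun n => (t (ψ (θ n))).1) atTop (𝓝 s.1) :=
    (continuous_fst.tendsto _).comp hlim2
  have c2 : Tendsto (fun n => (t (ψ (θ n))).2.1) atTop (𝓝 s.2.1) :=
    ((continuous_fst.comp continuous_snd).tendsto _).comp hlim2
  have c3 : Tendsto (fun n => (t (ψ (θ n))).2.2) atTop (𝓝 s.2.2) :=
    ((continuous_snd.comp continuous_snd).tendsto _).comp hlim2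
  have l1 : Tendsto (fun n => g (φ (ψ (θ n))) • (t (ψ (θ n))).1) atTop (𝓝 s'.1) :=
    (continuous_fst.tendsto _).comp hlim'
  have l2 : Tendsto (fun n => g (φ (ψ (θ n))) • (t (ψ (θ n))).2.1) atTop (𝓝 s'.2.1) :=
    ((continuous_fst.comp continuous_snd).tendsto _).comp hlim'
  have l3 : Tendsto (fun n => g (φ (ψ (θ n))) • (t (ψ (θ n))).2.2) atTop (𝓝 s'.2.2) :=
    ((continuous_snd.comp continuous_snd).tendsto _).comp hlim'
  have k1 : s.1 ≠ b → s'.1 = c := fun hb => tendsto_nhds_unique l1 (hconv2.apply c1 hb)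
  have k2 : s.2.1 ≠ b → s'.2.1 = c := fun hb => tendsto_nhds_unique l2 (hconv2.apply c2 hb)
  have k3 : s.2.2 ≠ b → s'.2.2 = c := fun hb => tendsto_nhds_unique l3 (hconv2.apply c3 hb)
  by_cases hb1 : s.1 = b
  · have := k2 (fun hb => d1 (hb1.trans hb.symm))
    have := k3 (fun hb => d2 (hb1.trans hb.symm))
    exact e3 (by rw [k2 (fun hb => d1 (hb1.trans hb.symm)), k3 (fun hb => d2 (hb1.trans hb.symm))])
  · by_cases hb2 : s.2.1 = b
    · exact e2 (by rw [k1 hb1, k3 (fun hb => d3 (hb2.trans hb.symm))])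
    · exact e1 (by rw [k1 hb1, k2 hb2])

end triples

end Pool.Agent.Q104.CT
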