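import Pool.Agent.Q104.CT.Top

set_option autoImplicit false

/-!
# The quotient of the boundary in which the boundary of a free factor and its translates are
collapsed
-/

open Filter Topology

namespace Pool.Agent.Q104.CT

open Bd

/-- The third generator. -/
def cc : Lt := (2, true)

/-- The side of the edge `(g, g c)` of the Cayley tree on which `p` lies. -/
noncomputable def iota (p : Bd) (g : H) : Bool := decide ((g⁻¹ • p).get 0 = cc)

/-- The compactum: the collection of all functions `iota p`. -/
def Z : Type := Set.range iota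

instance : TopologicalSpace Z := inferInstanceAs (TopologicalSpace (Set.range iota))

/-- The map from the boundary to `Z`. -/
noncomputable def phi (p : Bd) : Z := ⟨iota p, p, rfl⟩

theorem phi_surj (z : Z) : ∃ p, phi p = z := by
  obtain ⟨_, p, rfl⟩ := z
  exact ⟨p, rfl⟩

theorem phi_eq {p q : Bd} : phi p = phi q ↔ ∀ g, iota p g = iota q g := by
  constructor
  · intro h g
    exact congrFun (congrArg Subtype.val h) g
  · intro h
    exact Subtype.ext (funext h)

theorem smul_agree (g : H) {p q : Bd} {m : ℕ}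
    (h : ∀ i < m + g.toWord.length, p.get i = q.get i) :
    ∀ i < m, (g • p).get i = (g • q).get i := by
  rw [smul_eq, smul_eq]
  exact actL_agree _ h

theorem iota_eq_of_agree (g : H) {p q : Bd}
    (h : ∀ i < 1 + (g⁻¹).toWord.length, p.get i = q.get i) : iota p g = iota q g := by
  unfold iota
  rw [smul_agree g⁻¹ h 0 one_pos]

theorem phi_continuous : Continuous phi := by
  apply Continuous.subtype_mk
  apply continuous_pi
  intro g
  rw [continuous_iff_continuousAt]
  intro p
  have h1 : ∀ᶠ q in 𝓝 p, iota q g = iota p g := by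
    have h2 : ∀ᶠ q in 𝓝 p, dist q p < (1 / 2 : ℝ) ^ (1 + (g⁻¹).toWord.length) :=
      Metric.ball_mem_nhds p (by positivity)
    filter_upwards [h2] with q hq
    exact iota_eq_of_agree g (fun i hi => agree_of_dist hq i (by omega))
  exact (tendsto_const_nhds (x := iota p g)).congr' (h1.mono fun _ h => h.symm)

instance : CompactSpace Z := by
  have h1 : IsCompact (Set.range iota) :=
    isCompact_range (continuous_subtype_val.comp phi_continuous)
  exact isCompact_iff_compactSpace.1 h1

instance : T2Space Z := inferInstanceAs (T2Space (Set.range iota))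

instance : Countable H := inferInstance

instance : SecondCountableTopology Z :=
  inferInstanceAs (SecondCountableTopology (Set.range iota))

theorem metrizable : TopologicalSpace.MetrizableSpace Z :=
  TopologicalSpace.metrizableSpace_of_t3_secondCountable Z

theorem iota_smul (h : H) (p : Bd) (g : H) : iota (h • p) g = iota p (h⁻¹ * g) := by
  unfold iota
  rw [mul_inv_rev, inv_inv, mul_smul]

noncomputable instance : MulAction H Z where
  smul h z := ⟨fun g => z.1 (h⁻¹ * g), by
    obtain ⟨_, p, rfl⟩ := z
    exact ⟨h • p, funext fun g => iota_smul h p g⟩⟩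
  one_smul z := by
    apply Subtype.ext
    funext g
    show z.1 ((1 : H)⁻¹ * g) = z.1 g
    rw [inv_one, one_mul]
  mul_smul a b z := by
    apply Subtype.ext
    funext g
    show z.1 ((a * b)⁻¹ * g) = z.1 (b⁻¹ * (a⁻¹ * g))
    rw [mul_inv_rev, mul_assoc]

theorem phi_smul (h : H) (p : Bd) : phi (h • p) = h • phi p :=
  Subtype.ext (funext fun g => iota_smul h p g)

theorem smul_continuous (h : H) : Continuous fun z : Z => h • z := by
  apply Continuous.subtype_mk
  apply continuous_pi
  intro g
  exact (continuous_apply (h⁻¹ * g)).comp continuous_subtype_val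

/-- Uniform convergence in `Z`. -/
theorem convSeq_of {h : ℕ → H} {ξ η : Bd} (h1 : ConvTo h ξ) (h2 : ConvTo (fun n => (h n)⁻¹) η) :
    ConvSeq h (phi η) (phi ξ) := by
  intro K hK hη U hU
  have h3 : IsClosed (phi ⁻¹' K) := hK.isClosed.preimage phi_continuous
  obtain ⟨m, hm⟩ := mem_of_agree (phi_continuous.continuousAt.preimage_mem_nhds hU)
  filter_upwards [uniform h1 h2 h3 hη m] with n hn z hz
  obtain ⟨p, rfl⟩ := phi_surj z
  rw [← phi_smul]
  exact hm _ (hn p hz)

theorem isConvergence : IsConvergence H Z := by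
  refine ⟨smul_continuous, fun h hh => ?_⟩
  obtain ⟨φ, hφ, ξ, η, h1, h2⟩ := exists_subseq (length_tendsto hh)
  exact ⟨φ, hφ, phi η, phi ξ, convSeq_of h1 h2⟩

/-- Every point is a limit point. -/
theorem mem_limitSet (z : Z) : z ∈ LimitSet H Z := by
  obtain ⟨ξ, rfl⟩ := phi_surj z
  -- the prefixes of `ξ`
  let pre : ℕ → List Lt := fun n => (List.range n).map ξ.get
  have hred : ∀ n, Red (pre n) := by
    intro n
    unfold Red
    rw [List.isChain_iff_getElem]
    intro i hi
    simp only [pre, List.length_map, List.length_range] at hi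
    simp only [pre, List.getElem_map, List.getElem_range]
    exact ξ.get_succ_ne i
  have hw : ∀ n, (FreeGroup.mk (pre n) : H).toWord = pre n := by
    intro n
    rw [FreeGroup.toWord_mk]
    apply FreeGroup.IsReduced.reduce_eq
    refine List.IsChain.imp ?_ (hred n)
    rintro ⟨i, b⟩ ⟨j, c⟩ h2 h3
    simp only at h3
    subst h3
    by_contra h4
    apply h2
    simp only [bar, Prod.mk.injEq, true_and]
    cases b <;> cases c <;> simp_all
  let h : ℕ → H := fun n => FreeGroup.mk (pre n)
  have hlen : ∀ n, (h n).toWord.length = n := by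
    intro n
    rw [hw n]
    simp [pre]
  have hinj : Function.Injective h := by
    intro m n hmn
    rw [← hlen m, hmn, hlen]
  obtain ⟨φ, hφ, ξ', η, h1, h2⟩ := exists_subseq (length_tendsto hinj)
  have h3 : ξ' = ξ := by
    apply ext'
    intro i
    have h4 := (h1 (i + 1)).and (hφ.tendsto_atTop.eventually_gt_atTop i)
    obtain ⟨n, h5, h6⟩ := h4.exists
    have h7 := h5 i (by omega)
    rw [Function.comp_apply, hw (φ n)] at h7
    simp only [pre] at h7
    rw [List.getElem?_map, List.getElem?_range h6, Option.map_some, Option.some.injEq] at h7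
    exact h7.symm
  subst h3
  exact ⟨h ∘ φ, phi η, hinj.comp hφ.injective, convSeq_of h1 h2⟩

/-- The infinite words in the first two generators. -/
def PW : Set Bd := {p | ∀ n, (p.get n).1 ≠ 2}

theorem iota_PW {p : Bd} (hp : p ∈ PW) (g : H) :
    iota p g = decide ((g⁻¹).toWord[0]? = some cc) := by
  unfold iota
  rw [smul_eq]
  congr 1
  rw [eq_iff_iff]
  obtain ⟨k, hk⟩ := exists_cancel (g⁻¹).toWord p
  rcases Nat.lt_or_ge k (g⁻¹).toWord.length with h | h
  · rw [(actL_get _ (red_toWord _) p k hk 0).1 (by omega), Option.some.injEq]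
  · rw [(actL_get _ (red_toWord _) p k hk 0).2 (by omega)]
    have h1 : ∀ q : ℕ, p.get q ≠ cc := fun q hq => hp q (by rw [hq]; rfl)
    refine ⟨fun h2 => absurd h2 (h1 _), fun h2 => ?_⟩
    exfalso
    have h3 : 0 < (g⁻¹).toWord.length := by
      by_contra h4
      rw [List.getElem?_eq_none (by omega)] at h2
      exact absurd h2 (by simp)
    have h4 := hk.2.1 ((g⁻¹).toWord.length - 1) (by omega)
    rw [show (g⁻¹).toWord.length - 1 - ((g⁻¹).toWord.length - 1) = 0 by omega, h2,
      Option.some.injEq] at h4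
    apply hp ((g⁻¹).toWord.length - 1)
    have h5 : (bar (p.get ((g⁻¹).toWord.length - 1))).1 = cc.1 := by rw [← h4]
    exact h5

theorem phi_PW {p q : Bd} (hp : p ∈ PW) (hq : q ∈ PW) : phi p = phi q :=
  phi_eq.2 fun g => by rw [iota_PW hp, iota_PW hq]

/-- The periodic words `x x x ...`. -/
def rep (x : Lt) : Bd := ⟨fun _ => x, fun _ => (bar_ne x).symm⟩

theorem rep_get (x : Lt) (n : ℕ) : (rep x).get n = x := rfl

theorem rep_mem (x : Lt) (hx : x.1 ≠ 2) : rep x ∈ PW := fun _ => hx

/-- A sequence with values in a finite set takes some value infinitely often. -/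
theorem frequently_const {α : Type} {h : ℕ → α} {S : Set α} (hS : S.Finite)
    (hf : ∃ᶠ n in atTop, h n ∈ S) : ∃ g, ∃ᶠ n in atTop, h n = g := by
  by_contra hcon
  push Not at hcon
  apply hf
  have h1 : ∀ᶠ n in atTop, ∀ g ∈ S, h n ≠ g := by
    rw [Filter.eventually_all_finite hS]
    intro g _
    exact hcon g
  filter_upwards [h1] with n hn hmem
  exact hn _ hmem rfl

/-- Points with two preimages (with different first letters) are not conical. -/
theorem not_conical {q₁ q₂ : Bd} (hq : phi q₁ = phi q₂) (h12 : q₁ ≠ q₂) {y₁ y₂ : Bd}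
    (hy1 : phi y₁ ≠ phi q₁) (hy2 : phi y₂ ≠ phi q₁) (hy : phi y₁ ≠ phi y₂) :
    ¬ Conical H (phi q₁) := by
  rintro ⟨h, b, c, hbc, hb, hc⟩
  by_cases hcase : ∃ L : ℕ, ∃ᶠ n in atTop, (h n).toWord.length ≤ L
  · obtain ⟨L, hL⟩ := hcase
    obtain ⟨g, hg⟩ := frequently_const (finite_ball L) hL
    have key : ∀ y : Bd, phi y ≠ phi q₁ → g • phi y = c := by
      intro y hy
      have h1 : ∃ᶠ n in atTop, h n • phi y ∈ ({g • phi y} : Set Z) :=
        hg.mono fun n hn => by rw [hn]; rfl
      have h2 := isClosed_singleton.mem_of_frequently_of_tendsto h1 (hc _ hy)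
      exact (Set.mem_singleton_iff.1 h2).symm
    apply hy
    have h1 := (key y₁ hy1).trans (key y₂ hy2).symm
    have h2 := congrArg (fun z => g⁻¹ • z) h1
    simpa using h2
  · push Not at hcase
    have hlen : Tendsto (fun n => (h n).toWord.length) atTop atTop := by
      rw [tendsto_atTop]
      intro L
      filter_upwards [hcase L] with n hn
      exact hn.le
    obtain ⟨φ, hφ, ξ, η, h1, h2⟩ := exists_subseq hlen
    have key : ∀ q : Bd, q ≠ η → Tendsto (fun n => h (φ n) • phi q) atTop (𝓝 (phi ξ)) := by
      intro q hqη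
      have h3 : Tendsto (fun n => h (φ n) • q) atTop (𝓝 ξ) := by
        rw [Filter.tendsto_def]
        intro U hU
        obtain ⟨m, hm⟩ := mem_of_agree hU
        filter_upwards [uniform h1 h2 (isClosed_singleton (x := q)) (fun h => hqη h.symm) m]
          with n hn
        exact hm _ (hn q rfl)
      have h4 := (phi_continuous.tendsto ξ).comp h3
      refine h4.congr fun n => ?_
      exact phi_smul _ _
    have hb' : b = phi ξ := by
      have h3 : ∃ q : Bd, q ≠ η ∧ phi q = phi q₁ := by
        by_cases h4 : q₁ = η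
        · exact ⟨q₂, fun h5 => h12 (h4.trans h5.symm), hq.symm⟩
        · exact ⟨q₁, h4, rfl⟩
      obtain ⟨q, hq1, hq2⟩ := h3
      have h4 := key q hq1
      rw [hq2] at h4
      exact tendsto_nhds_unique (hb.comp hφ.tendsto_atTop) h4
    have hc' : c = phi ξ := by
      have h3 : ∃ y : Bd, y ≠ η ∧ phi y ≠ phi q₁ := by
        by_cases h4 : y₁ = η
        · exact ⟨y₂, fun h5 => hy (by rw [h4, h5]), hy2⟩
        · exact ⟨y₁, h4, hy1⟩
      obtain ⟨y, hy1', hy2'⟩ := h3
      exact tendsto_nhds_unique ((hc _ hy2').comp hφ.tendsto_atTop) (key y hy1')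
    exact hbc (hb'.trans hc'.symm)

/-- The points `c c c ...`, `c⁻¹ c⁻¹ c⁻¹ ...` and the collapsed boundary of the free factor. -/
theorem phi_c_ne {p : Bd} (hp : p ∈ PW) : phi (rep (2, true)) ≠ phi p := by
  intro h
  have h1 := phi_eq.1 h 1
  rw [iota_PW hp] at h1
  unfold iota at h1
  rw [inv_one, one_smul, rep_get] at h1
  simp [cc] at h1

theorem phi_c'_ne {p : Bd} (hp : p ∈ PW) : phi (rep (2, false)) ≠ phi p := by
  intro h
  have h1 := phi_eq.1 h (FreeGroup.of 2)⁻¹
  rw [iota_PW hp] at h1
  unfold iota at h1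
  rw [inv_inv] at h1
  have h2 : (FreeGroup.of 2 : H) • rep (2, false) = rep (2, false) := by
    rw [smul_eq, FreeGroup.toWord_of]
    show step (2, true) (rep (2, false)) = _
    rw [step_of_eq rfl]
    rfl
  rw [h2, rep_get, FreeGroup.toWord_of] at h1
  simp [cc] at h1

theorem phi_cc'_ne : phi (rep (2, true)) ≠ phi (rep (2, false)) := by
  intro h
  have h1 := phi_eq.1 h 1
  unfold iota at h1
  rw [inv_one, one_smul, one_smul, rep_get, rep_get] at h1
  simp [cc] at h1

theorem PW_nonConical {p : Bd} (hp : p ∈ PW) : phi p ∈ NonConical H Z := by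
  refine ⟨mem_limitSet _, ?_⟩
  have h1 : phi p = phi (rep (0, true)) := phi_PW hp (rep_mem _ (by decide))
  rw [h1]
  have h0 : rep (0, true) ∈ PW := rep_mem _ (by decide)
  refine not_conical (q₂ := rep (1, true)) (phi_PW h0 (rep_mem _ (by decide))) ?_
    (phi_c_ne h0) (phi_c'_ne h0) phi_cc'_ne
  intro h
  have := congrArg (fun q => q.get 0) h
  simp [rep_get] at this

/-- The base point of the Cannon-Thurston property. -/
theorem ct {h : ℕ → H} {ξ : Bd} (hh : ConvTo h ξ) :
    Tendsto (fun n => h n • phi (rep (0, true))) atTop (𝓝 (phi ξ)) := by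
  rw [Filter.tendsto_def]
  intro U hU
  obtain ⟨m, hm⟩ := mem_of_agree (phi_continuous.continuousAt.preimage_mem_nhds hU)
  filter_upwards [hh m] with n hn
  have h1 : phi (rep (0, true)) = phi (rep (1, true)) :=
    phi_PW (rep_mem _ (by decide)) (rep_mem _ (by decide))
  rcases cancel_zero (h := h n) (p := rep (0, true)) (q := rep (1, true)) (by simp [rep_get])
    with h2 | h2
  · show h n • phi (rep (0, true)) ∈ U
    rw [← phi_smul]
    exact hm _ (agree_of_cancel h2 (fun i hi => hn i (by omega)))
  · show h n • phi (rep (0, true)) ∈ U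
    rw [h1, ← phi_smul]
    exact hm _ (agree_of_cancel h2 (fun i hi => hn i (by omega)))

end Pool.Agent.Q104.CT
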