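import Pool.Agent.Q104.CT.Defs

set_option autoImplicit false

/-!
# Dynamics of the free group on its boundary
-/

open Filter Topology

namespace Pool.Agent.Q104.CT

namespace Bd

theorem agree_of_dist {p q : Bd} {m : ℕ} (h : dist p q < (1 / 2 : ℝ) ^ m) :
    ∀ i < m + 1, p.get i = q.get i := fun i hi =>
  PiNat.apply_eq_of_dist_lt (E := fun _ => Lt) (x := p.1) (y := q.1) h (Nat.lt_succ_iff.1 hi)

theorem dist_le_of_agree {p q : Bd} {m : ℕ} (h : ∀ i < m, p.get i = q.get i) :
    dist p q ≤ (1 / 2 : ℝ) ^ m :=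
  (PiNat.mem_cylinder_iff_dist_le (E := fun _ => Lt) (x := q.1) (y := p.1)).1 h

theorem isClosed_red : IsClosed {w : ℕ → Lt | ∀ n, w (n + 1) ≠ bar (w n)} := by
  have : {w : ℕ → Lt | ∀ n, w (n + 1) ≠ bar (w n)} =
      ⋂ n, {w : ℕ → Lt | w (n + 1) ≠ bar (w n)} := by
    ext w; simp
  rw [this]
  apply isClosed_iInter
  intro n
  have h1 : Continuous fun w : ℕ → Lt => (w (n + 1), w n) :=
    (continuous_apply _).prodMk (continuous_apply _)
  exact (isClosed_discrete {x : Lt × Lt | x.1 ≠ bar x.2}).preimage h1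

instance : CompactSpace Bd :=
  isCompact_iff_compactSpace.1 (isClosed_red.isCompact)

theorem eventually_agree {p : ℕ → Bd} {ξ : Bd} (h : Tendsto p atTop (𝓝 ξ)) (m : ℕ) :
    ∀ᶠ n in atTop, ∀ i < m, (p n).get i = ξ.get i := by
  have h1 := (Metric.tendsto_nhds.1 h) ((1 / 2 : ℝ) ^ m) (by positivity)
  filter_upwards [h1] with n hn i hi
  exact agree_of_dist hn i (by omega)

theorem mem_of_agree {ξ : Bd} {U : Set Bd} (hU : U ∈ 𝓝 ξ) :
    ∃ m : ℕ, ∀ p : Bd, (∀ i < m, p.get i = ξ.get i) → p ∈ U := by
  obtain ⟨ε, hε, hb⟩ := Metric.mem_nhds_iff.1 hU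
  obtain ⟨m, hm⟩ := exists_pow_lt_of_lt_one hε (by norm_num : (1 / 2 : ℝ) < 1)
  exact ⟨m, fun p hp => hb (lt_of_le_of_lt (dist_le_of_agree hp) hm)⟩

/-- Extension of a finite word to an infinite one. -/
def extW (w : List Lt) (i : ℕ) : Lt := (w[i]?).getD ((w.getLast?).getD (0, true))

theorem extW_red {w : List Lt} (hw : Red w) (i : ℕ) : extW w (i + 1) ≠ bar (extW w i) := by
  unfold extW
  rcases Nat.lt_or_ge (i + 1) w.length with h | h
  · rw [List.getElem?_eq_getElem h, List.getElem?_eq_getElem (by omega), Option.getD_some,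
      Option.getD_some]
    exact List.isChain_iff_getElem.1 hw i h
  · rw [List.getElem?_eq_none h, Option.getD_none]
    rcases Nat.lt_or_ge i w.length with h' | h'
    · have h1 : i = w.length - 1 := by omega
      rw [List.getLast?_eq_getElem?, ← h1, List.getElem?_eq_getElem h', Option.getD_some,
        Option.getD_some]
      exact (bar_ne _).symm
    · rw [List.getElem?_eq_none h', Option.getD_none]
      exact (bar_ne _).symm

/-- An infinite word which extends the reduced word of `h`. -/
def ext (h : H) : Bd := ⟨extW h.toWord, extW_red (red_toWord h)⟩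

theorem ext_get {h : H} {i : ℕ} (hi : i < h.toWord.length) :
    h.toWord[i]? = some ((ext h).get i) := by
  show _ = some (extW h.toWord i)
  unfold extW
  rw [List.getElem?_eq_getElem hi, Option.getD_some]

theorem finite_ball (L : ℕ) : {g : H | g.toWord.length ≤ L}.Finite := by
  have h1 : {w : List Lt | w.length ≤ L}.Finite := List.finite_length_le Lt L
  exact h1.preimage (f := fun g : H => g.toWord) (FreeGroup.toWord_injective.injOn)

theorem length_tendsto {h : ℕ → H} (hh : Function.Injective h) :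
    Tendsto (fun n => (h n).toWord.length) atTop atTop := by
  rw [tendsto_atTop]
  intro L
  have h1 : ∀ᶠ n in atTop, h n ∉ {g : H | g.toWord.length ≤ L} := by
    rw [← Nat.cofinite_eq_atTop]
    exact hh.tendsto_cofinite.eventually (finite_ball L).eventually_cofinite_notMem
  filter_upwards [h1] with n hn
  simp only [Set.mem_ofPred_eq, not_le] at hn
  exact hn.le

theorem length_inv (h : H) : (h⁻¹).toWord.length = h.toWord.length := by
  rw [FreeGroup.toWord_inv, FreeGroup.invRev_length]

theorem inv_get (h : H) (i : ℕ) (hi : i < h.toWord.length) :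
    (h⁻¹).toWord[i]? = (h.toWord[h.toWord.length - 1 - i]?).map bar := by
  rw [FreeGroup.toWord_inv, FreeGroup.invRev, List.getElem?_reverse (by simpa using hi),
    List.getElem?_map, List.length_map]
  rfl

/-- Sequences of elements whose lengths tend to infinity have convergent subsequences. -/
theorem exists_subseq {h : ℕ → H} (hh : Tendsto (fun n => (h n).toWord.length) atTop atTop) :
    ∃ φ : ℕ → ℕ, StrictMono φ ∧ ∃ ξ η : Bd, ConvTo (h ∘ φ) ξ ∧
      ConvTo (fun n => (h (φ n))⁻¹) η := by
  obtain ⟨⟨ξ, η⟩, φ, hφ, hlim⟩ :=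
    CompactSpace.tendsto_subseq (fun n => (ext (h n), ext (h n)⁻¹))
  rw [nhds_prod_eq, tendsto_prod_iff'] at hlim
  refine ⟨φ, hφ, ξ, η, fun m => ?_, fun m => ?_⟩
  · filter_upwards [eventually_agree hlim.1 m, (hh.comp hφ.tendsto_atTop).eventually_ge_atTop m]
      with n h1 h2 i hi
    have h3 : m ≤ (h (φ n)).toWord.length := h2
    show (h (φ n)).toWord[i]? = _
    rw [ext_get (by omega)]
    exact congrArg some (h1 i hi)
  · filter_upwards [eventually_agree hlim.2 m, (hh.comp hφ.tendsto_atTop).eventually_ge_atTop m]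
      with n h1 h2 i hi
    have h3 : m ≤ (h (φ n)).toWord.length := h2
    rw [← length_inv] at h3
    rw [ext_get (by omega)]
    exact congrArg some (h1 i hi)

theorem len_of_agree {w : List Lt} {ξ : Bd} {m : ℕ} (h : ∀ i < m, w[i]? = some (ξ.get i)) :
    m ≤ w.length := by
  by_contra hcon
  push Not at hcon
  have h1 := h w.length hcon
  rw [List.getElem?_eq_none le_rfl] at h1
  exact absurd h1 (by simp)

/-- If few letters cancel the product agrees with the finite word. -/
theorem agree_of_cancel {h : H} {q ξ : Bd} {k m : ℕ} (hk : Cancel h.toWord q k)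
    (hm : ∀ i < m + k, h.toWord[i]? = some (ξ.get i)) : ∀ i < m, (h • q).get i = ξ.get i := by
  intro i hi
  have h1 := len_of_agree hm
  have h2 := (actL_get _ (red_toWord h) q k hk i).1 (by omega)
  rw [hm i (by omega), Option.some.injEq] at h2
  rw [smul_eq, h2]

/-- The number of cancelling letters is bounded if `q` is far from the limit of the inverses. -/
theorem cancel_lt {h : H} {q η : Bd} {k m : ℕ} (hk : Cancel h.toWord q k)
    (hm : ∀ i < m, (h⁻¹).toWord[i]? = some (η.get i)) (hq : ∃ i < m, q.get i ≠ η.get i) :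
    k < m := by
  by_contra hcon
  push Not at hcon
  obtain ⟨i, hi, hne⟩ := hq
  apply hne
  have h1 := hk.2.1 i (by omega)
  have h2 := hm i hi
  have h3 : i < h.toWord.length := by
    have := hk.1
    omega
  rw [inv_get h i h3, h1, Option.map_some, bar_bar, Option.some.injEq] at h2
  exact h2

/-- The uniform convergence off the repelling point. -/
theorem uniform {h : ℕ → H} {ξ η : Bd} (h1 : ConvTo h ξ) (h2 : ConvTo (fun n => (h n)⁻¹) η)
    {K : Set Bd} (hK : IsClosed K) (hη : η ∉ K) (m : ℕ) :
    ∀ᶠ n in atTop, ∀ p ∈ K, ∀ i < m, (h n • p).get i = ξ.get i := by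
  obtain ⟨l, hl⟩ := mem_of_agree (hK.isOpen_compl.mem_nhds hη)
  filter_upwards [h1 (m + l), h2 l] with n h3 h4 p hp
  obtain ⟨k, hk⟩ := exists_cancel (h n).toWord p
  have h5 : k < l := by
    apply cancel_lt hk h4
    by_contra hcon
    push Not at hcon
    exact hl p hcon hp
  exact agree_of_cancel hk (fun i hi => h3 i (by omega))

/-- Words with different first letters. -/
theorem cancel_zero {h : H} {p q : Bd} (hpq : p.get 0 ≠ q.get 0) :
    Cancel h.toWord p 0 ∨ Cancel h.toWord q 0 := by
  by_contra hcon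
  rw [not_or] at hcon
  obtain ⟨h1, h2⟩ := hcon
  have key : ∀ r : Bd, ¬ Cancel h.toWord r 0 →
      h.toWord[h.toWord.length - 1]? = some (bar (r.get 0)) := by
    intro r hr
    by_contra h3
    exact hr ⟨Nat.zero_le _, fun j hj => absurd hj (Nat.not_lt_zero _), fun _ => h3⟩
  have h3 := (key p h1).symm.trans (key q h2)
  rw [Option.some.injEq] at h3
  exact hpq (bar_inj h3)

end Bd

end Pool.Agent.Q104.CT
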