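import Mathlib

set_option autoImplicit false

/-!
# Infinite reduced words and the action of the free group of rank three
-/

namespace Pool.Agent.Q104.CT

/-- The letters: `(i, true)` is the generator `i`, `(i, false)` is its inverse. -/
abbrev Lt : Type := Fin 3 × Bool

/-- The inverse letter. -/
def bar (x : Lt) : Lt := (x.1, !x.2)

theorem bar_bar (x : Lt) : bar (bar x) = x := by
  obtain ⟨i, b⟩ := x
  simp [bar]

theorem bar_ne (x : Lt) : bar x ≠ x := by
  obtain ⟨i, b⟩ := x
  simp [bar]

theorem bar_inj {x y : Lt} (h : bar x = bar y) : x = y := by
  rw [← bar_bar x, h, bar_bar]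

/-- The free group of rank three. -/
abbrev H : Type := FreeGroup (Fin 3)

/-- The Gromov boundary of the free group of rank three: infinite reduced words. -/
def Bd : Type := {w : ℕ → Lt // ∀ n, w (n + 1) ≠ bar (w n)}

namespace Bd

/-- The letters of an infinite word. -/
def get (p : Bd) (n : ℕ) : Lt := p.1 n

theorem get_succ_ne (p : Bd) (n : ℕ) : p.get (n + 1) ≠ bar (p.get n) := p.2 n

theorem ext' {p q : Bd} (h : ∀ n, p.get n = q.get n) : p = q := Subtype.ext (funext h)

/-- Remove the first letter. -/
def tail (p : Bd) : Bd := ⟨fun n => p.1 (n + 1), fun n => p.2 (n + 1)⟩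

/-- Add a first letter. -/
def cons (x : Lt) (p : Bd) (h : p.get 0 ≠ bar x) : Bd :=
  ⟨fun n => Nat.casesOn n x p.1, fun n => by cases n with | zero => exact h | succ n => exact p.2 n⟩

/-- Multiplication by a letter: the reduced form of `x p`. -/
def step (x : Lt) (p : Bd) : Bd := if h : p.get 0 = bar x then p.tail else p.cons x h

theorem tail_get (p : Bd) (n : ℕ) : p.tail.get n = p.get (n + 1) := rfl

theorem cons_get_zero (x : Lt) (p : Bd) (h) : (cons x p h).get 0 = x := rfl

theorem cons_get_succ (x : Lt) (p : Bd) (h) (n : ℕ) : (cons x p h).get (n + 1) = p.get n := rfl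

theorem step_of_eq {x : Lt} {p : Bd} (h : p.get 0 = bar x) : step x p = p.tail := dif_pos h

theorem step_of_ne {x : Lt} {p : Bd} (h : p.get 0 ≠ bar x) : step x p = p.cons x h := dif_neg h

theorem step_step (x : Lt) (p : Bd) : step x (step (bar x) p) = p := by
  by_cases h : p.get 0 = bar (bar x)
  · rw [step_of_eq h]
    have h1 : p.tail.get 0 ≠ bar x := by
      rw [tail_get]
      have := p.get_succ_ne 0
      rw [h, bar_bar] at this
      exact this
    rw [step_of_ne h1]
    apply ext'
    intro n
    cases n with
    | zero => rw [cons_get_zero, h, bar_bar]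
    | succ n => rw [cons_get_succ, tail_get]
  · rw [step_of_ne h, step_of_eq (by rw [cons_get_zero])]
    rfl

theorem step_step' (x : Lt) (p : Bd) : step (bar x) (step x p) = p := by
  have := step_step (bar x) p
  rwa [bar_bar] at this

/-- The permutation given by a generator. -/
def gen (i : Fin 3) : Equiv.Perm Bd where
  toFun := step (i, true)
  invFun := step (i, false)
  left_inv p := step_step' (i, true) p
  right_inv p := step_step (i, true) p

/-- The action of the free group on its boundary by left multiplication: a generator `x` sends `p`
to the reduced form of `x p`. -/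
def act : H →* Equiv.Perm Bd := FreeGroup.lift gen

instance : MulAction H Bd where
  smul h p := act h p
  one_smul p := by
    show act 1 p = p
    rw [map_one]; rfl
  mul_smul g h p := by
    show act (g * h) p = act g (act h p)
    rw [map_mul]; rfl

theorem smul_def (h : H) (p : Bd) : h • p = act h p := rfl

/-- The action of a finite word. -/
def actL : List Lt → Bd → Bd
  | [], p => p
  | x :: w, p => step x (actL w p)

theorem act_mk (w : List Lt) (p : Bd) : act (FreeGroup.mk w) p = actL w p := by
  induction w with
  | nil =>
    show act 1 p = p
    rw [map_one]; rfl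
  | cons x w ih =>
    have h1 : (FreeGroup.mk (x :: w) : H) = FreeGroup.mk [x] * FreeGroup.mk w := by
      rw [FreeGroup.mul_mk]; rfl
    rw [h1, map_mul]
    show act (FreeGroup.mk [x]) (act (FreeGroup.mk w) p) = step x (actL w p)
    rw [ih]
    obtain ⟨i, b⟩ := x
    cases b with
    | true =>
      have : (FreeGroup.mk [(i, true)] : H) = FreeGroup.of i := rfl
      rw [this]
      show FreeGroup.lift gen (FreeGroup.of i) _ = _
      rw [FreeGroup.lift_apply_of]
      rfl
    | false =>
      have : (FreeGroup.mk [(i, false)] : H) = (FreeGroup.of i)⁻¹ := rfl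
      rw [this]
      show FreeGroup.lift gen (FreeGroup.of i)⁻¹ _ = _
      rw [map_inv, FreeGroup.lift_apply_of]
      rfl

theorem smul_eq (h : H) (p : Bd) : h • p = actL h.toWord p := by
  rw [smul_def, ← act_mk, FreeGroup.mk_toWord]

/-- `w` is a reduced word. -/
def Red (w : List Lt) : Prop := w.IsChain (fun a b => b ≠ bar a)

theorem red_toWord (h : H) : Red h.toWord := by
  have h1 := FreeGroup.isReduced_toWord (x := h)
  unfold FreeGroup.IsReduced at h1
  refine List.IsChain.imp ?_ h1
  rintro ⟨i, b⟩ ⟨j, c⟩ h2 h3
  simp only [bar, Prod.mk.injEq] at h3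
  have := h2 h3.1.symm
  rw [h3.2] at this
  cases b <;> simp at this

/-- `k` letters cancel in the product of `w` and `p`. -/
def Cancel (w : List Lt) (p : Bd) (k : ℕ) : Prop :=
  k ≤ w.length ∧ (∀ j < k, w[w.length - 1 - j]? = some (bar (p.get j))) ∧
    (k < w.length → w[w.length - 1 - k]? ≠ some (bar (p.get k)))

theorem exists_cancel (w : List Lt) (p : Bd) : ∃ k, Cancel w p k := by
  classical
  by_cases h : ∃ k, k < w.length ∧ w[w.length - 1 - k]? ≠ some (bar (p.get k))
  · refine ⟨Nat.find h, (Nat.find_spec h).1.le, fun j hj => ?_, fun _ => (Nat.find_spec h).2⟩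
    have := Nat.find_min h hj
    push Not at this
    exact this (hj.trans (Nat.find_spec h).1)
  · push Not at h
    exact ⟨w.length, le_rfl, fun j hj => h j hj, fun h' => absurd h' (lt_irrefl _)⟩

/-- The product of a finite and an infinite reduced word. -/
theorem actL_get (w : List Lt) (hw : Red w) (p : Bd) (k : ℕ) (hk : Cancel w p k) (i : ℕ) :
    (i < w.length - k → w[i]? = some ((actL w p).get i)) ∧
    (w.length - k ≤ i → (actL w p).get i = p.get (i - (w.length - k) + k)) := by
  induction w generalizing k i with
  | nil =>
    obtain ⟨h1, -, -⟩ := hk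
    simp only [List.length_nil, Nat.le_zero] at h1
    subst h1
    refine ⟨fun h => absurd h (by simp), fun _ => ?_⟩
    simp [actL]
  | cons x w ih =>
    have hw' : Red w := List.IsChain.tail hw
    obtain ⟨h1, h2, h3⟩ := hk
    simp only [List.length_cons] at h1 h2 h3 ⊢
    rcases Nat.lt_or_ge w.length k with hlt | hle
    · -- everything cancels
      have hkw : k = w.length + 1 := by omega
      subst hkw
      have hc : Cancel w p w.length := by
        refine ⟨le_rfl, fun j hj => ?_, fun h => absurd h (lt_irrefl _)⟩
        have := h2 j (by omega)
        rwa [show w.length + 1 - 1 - j = (w.length - 1 - j) + 1 by omega,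
          List.getElem?_cons_succ] at this
      have h4 := h2 w.length (by omega)
      rw [show w.length + 1 - 1 - w.length = 0 by omega, List.getElem?_cons_zero,
        Option.some.injEq] at h4
      have h5 := (ih hw' _ hc 0).2 (by omega)
      have h6 : (actL w p).get 0 = bar x := by
        rw [h5, h4, bar_bar]
        congr 1
        omega
      refine ⟨fun h => absurd h (by omega), fun _ => ?_⟩
      show (step x (actL w p)).get i = _
      rw [step_of_eq h6, tail_get, (ih hw' _ hc (i + 1)).2 (by omega)]
      congr 1
      omega
    · have hc : Cancel w p k := by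
        refine ⟨hle, fun j hj => ?_, fun h => ?_⟩
        · have := h2 j hj
          rwa [show w.length + 1 - 1 - j = (w.length - 1 - j) + 1 by omega,
            List.getElem?_cons_succ] at this
        · have := h3 (by omega)
          rwa [show w.length + 1 - 1 - k = (w.length - 1 - k) + 1 by omega,
            List.getElem?_cons_succ] at this
      have h6 : (actL w p).get 0 ≠ bar x := by
        rcases hle.lt_or_eq with hlt | heq
        · have h7 := (ih hw' _ hc 0).1 (by omega)
          intro h8
          rw [h8] at h7
          cases w with
          | nil => simp at hlt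
          | cons y w =>
            rw [List.getElem?_cons_zero, Option.some.injEq] at h7
            exact (List.isChain_cons_cons.1 hw).1 h7
        · have h7 := (ih hw' _ hc 0).2 (by omega)
          have h8 := h3 (by omega)
          rw [show w.length + 1 - 1 - k = 0 by omega, List.getElem?_cons_zero] at h8
          intro h9
          apply h8
          rw [h7] at h9
          rw [Option.some.injEq]
          apply bar_inj
          rw [bar_bar, ← h9]
          congr 1
          omega
      refine ⟨fun h => ?_, fun h => ?_⟩
      · show (x :: w)[i]? = some ((step x (actL w p)).get i)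
        rw [step_of_ne h6]
        cases i with
        | zero => rw [cons_get_zero, List.getElem?_cons_zero]
        | succ i =>
          rw [cons_get_succ, List.getElem?_cons_succ]
          exact (ih hw' _ hc i).1 (by omega)
      · show (step x (actL w p)).get i = _
        rw [step_of_ne h6]
        obtain ⟨i, rfl⟩ : ∃ j, i = j + 1 := ⟨i - 1, by omega⟩
        rw [cons_get_succ, (ih hw' _ hc i).2 (by omega)]
        congr 1
        omega

/-- Multiplication by a letter loses at most one letter of agreement. -/
theorem step_agree (x : Lt) {p q : Bd} {m : ℕ} (h : ∀ i < m + 1, p.get i = q.get i) :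
    ∀ i < m, (step x p).get i = (step x q).get i := by
  intro i hi
  by_cases h1 : p.get 0 = bar x
  · have h2 : q.get 0 = bar x := by rw [← h 0 (by omega), h1]
    rw [step_of_eq h1, step_of_eq h2, tail_get, tail_get]
    exact h (i + 1) (by omega)
  · have h2 : q.get 0 ≠ bar x := by rw [← h 0 (by omega)]; exact h1
    rw [step_of_ne h1, step_of_ne h2]
    cases i with
    | zero => rw [cons_get_zero, cons_get_zero]
    | succ i =>
      rw [cons_get_succ, cons_get_succ]
      exact h i (by omega)

theorem actL_agree (w : List Lt) {p q : Bd} {m : ℕ} (h : ∀ i < m + w.length, p.get i = q.get i) :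
    ∀ i < m, (actL w p).get i = (actL w q).get i := by
  induction w generalizing m with
  | nil => exact h
  | cons x w ih =>
    apply step_agree
    apply ih
    intro i hi
    apply h
    rw [List.length_cons]
    omega

end Bd

end Pool.Agent.Q104.CT
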